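import Pool.Agent.H985Z.SC.Spec

set_option autoImplicit false

/-! Configurations around the holes of the carpet. -/

namespace Pool.Agent.H325Z.SC

open Set Topology Pool.Agent.H985Z.SC

lemma tri_args (z0 z1 z2 : ℂ) (h0 : z0.re < 0) (h0' : z0.im < 0) (h1 : 0 < z1.re)
    (h1' : z1.im < 0) (h2 : 0 < z2.re) (h2' : 0 < z2.im) :
    Complex.arg z0 < Complex.arg z1 ∧ Complex.arg z1 < Complex.arg z2 ∧
      Complex.arg z2 < Complex.arg z0 + 2 * Real.pi := by
  have e0 : Complex.arg z0 < -(Real.pi / 2) := by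
    by_contra h
    rcases Complex.neg_pi_div_two_le_arg_iff.1 (not_lt.1 h) with h | h <;> linarith
  have e1 : -(Real.pi / 2) ≤ Complex.arg z1 := Complex.neg_pi_div_two_le_arg_iff.2 (Or.inl h1.le)
  have e2 : Complex.arg z1 < 0 := Complex.arg_neg_iff.2 h1'
  have e3 : 0 ≤ Complex.arg z2 := Complex.arg_nonneg_iff.2 h2'.le
  have e4 : Complex.arg z2 ≤ Real.pi / 2 := Complex.arg_le_pi_div_two_iff.2 (Or.inl h2.le)
  have e5 := Complex.neg_pi_lt_arg z0
  have e6 := Real.pi_pos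
  exact ⟨by linarith, by linarith, by linarith⟩

/-- the vector from the centre as a complex number -/
noncomputable def zz (c1 c2 : ℝ) (p : ℝ × ℝ) : ℂ :=
  ((p.1 - c1 : ℝ) : ℂ) + ((p.2 - c2 : ℝ) : ℂ) * Complex.I

lemma zz_re (c1 c2 : ℝ) (p : ℝ × ℝ) : (zz c1 c2 p).re = p.1 - c1 := by simp [zz]

lemma zz_im (c1 c2 : ℝ) (p : ℝ × ℝ) : (zz c1 c2 p).im = p.2 - c2 := by simp [zz]

/-- gauge of an interval -/
noncomputable def ga (c v : ℝ) : ℝ := max (-v / c) (v / (1 - c))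

lemma ga_mul (c v l : ℝ) (hl : 0 ≤ l) : ga c (l * v) = l * ga c v := by
  unfold ga
  rw [mul_max_of_nonneg _ _ hl]
  congr 1 <;> ring

lemma ga_le_one {c x : ℝ} (h0 : 0 < c) (h1 : c < 1) (hx : x ∈ Icc (0 : ℝ) 1) :
    ga c (x - c) ≤ 1 := by
  refine max_le ?_ ?_
  · rw [div_le_one h0]; linarith [hx.1]
  · rw [div_le_one (by linarith)]; linarith [hx.2]

lemma ga_zero {c : ℝ} (h0 : 0 < c) : 1 ≤ ga c (0 - c) := by
  refine le_max_of_le_left (le_of_eq ?_)
  field_simp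
  ring

lemma ga_one {c : ℝ} (h1 : c < 1) : 1 ≤ ga c (1 - c) := by
  refine le_max_of_le_right (le_of_eq ?_)
  rw [div_self (by linarith)]

lemma ga_le {c r v : ℝ} (hr : 0 < r) (h0 : 3 * r ≤ c) (h1 : c + 3 * r ≤ 1) :
    3 * r * ga c v ≤ |v| := by
  have ha := abs_nonneg v
  unfold ga
  rw [mul_max_of_nonneg _ _ (by linarith)]
  refine max_le ?_ ?_
  · rw [← mul_div_assoc, div_le_iff₀ (by linarith)]
    nlinarith [neg_abs_le v]
  · rw [← mul_div_assoc, div_le_iff₀ (by linarith)]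
    nlinarith [le_abs_self v]

lemma ga_cont (c : ℝ) : Continuous (ga c) := by
  unfold ga
  fun_prop

lemma exists_ann (K : Set (ℝ × ℝ)) (hK : K ⊆ Icc (0 : ℝ) 1 ×ˢ Icc (0 : ℝ) 1) (c1 c2 r : ℝ)
    (hr : 0 < r) (h1 : 3 * r ≤ c1) (h2 : c1 + 3 * r ≤ 1) (h3 : 3 * r ≤ c2) (h4 : c2 + 3 * r ≤ 1)
    (hole : ∀ p ∈ K, r ≤ max |p.1 - c1| |p.2 - c2|) (x y : Fin 3 → K)
    (hx0 : (x 0).1 = (c1 - r, c2 - r)) (hx1 : (x 1).1 = (c1 + r, c2 - r))
    (hx2 : (x 2).1 = (c1 + r, c2 + r)) (hy0 : (y 0).1 = (0, 0)) (hy1 : (y 1).1 = (1, 0))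
    (hy2 : (y 2).1 = (1, 1)) : ∃ A : Ann K, Nonempty (Tri A x y) := by
  have hz : ∀ p : K, zz c1 c2 p.1 ≠ 0 := by
    intro p h
    have e1 := zz_re c1 c2 p.1
    have e2 := zz_im c1 c2 p.1
    have e3 := hole p.1 p.2
    rw [h] at e1 e2
    rw [← e1, ← e2] at e3
    simp at e3
    linarith
  have hh : ∀ p : K, max (ga c1 (p.1.1 - c1)) (ga c2 (p.1.2 - c2)) ≤ 1 := fun p =>
    max_le (ga_le_one (by linarith) (by linarith) (hK p.2).1)
      (ga_le_one (by linarith) (by linarith) (hK p.2).2)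
  let A : Ann K :=
    { d := fun p => (Complex.arg (zz c1 c2 p.1) : Real.Angle)
      g := fun p => max |p.1.1 - c1| |p.1.2 - c2| - r
      h := fun p => 1 - max (ga c1 (p.1.1 - c1)) (ga c2 (p.1.2 - c2))
      cd := by
        rw [continuous_iff_continuousAt]
        intro p
        have hc : Continuous fun p : K => zz c1 c2 p.1 := by
          unfold zz
          fun_prop
        exact ContinuousAt.comp (f := fun p : K => zz c1 c2 p.1)
          (Complex.continuousAt_arg_coe_angle (hz p)) hc.continuousAt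
      cg := by fun_prop
      ch := by
        have := ga_cont c1
        have := ga_cont c2
        fun_prop
      g0 := fun p => sub_nonneg.2 (hole p.1 p.2)
      h0 := fun p => sub_nonneg.2 (hh p)
      sep := by
        intro p q hd he
        rw [Complex.arg_coe_angle_eq_iff, Complex.arg_eq_arg_iff (hz p) (hz q)] at hd
        set l : ℝ := ‖zz c1 c2 q.1‖ / ‖zz c1 c2 p.1‖ with hl
        have hl0 : 0 ≤ l := by positivity
        have hd' : (l : ℂ) * zz c1 c2 p.1 = zz c1 c2 q.1 := by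
          rw [hl]; push_cast; exact hd
        have e1 : q.1.1 - c1 = l * (p.1.1 - c1) := by
          rw [← zz_re c1 c2 q.1, ← hd', Complex.re_ofReal_mul, zz_re]
        have e2 : q.1.2 - c2 = l * (p.1.2 - c2) := by
          rw [← zz_im c1 c2 q.1, ← hd', Complex.im_ofReal_mul, zz_im]
        rw [e1, e2, ga_mul _ _ _ hl0, ga_mul _ _ _ hl0, abs_mul, abs_mul, abs_of_nonneg hl0,
          ← mul_max_of_nonneg _ _ hl0, ← mul_max_of_nonneg _ _ hl0] at he
        have e3 := hole p.1 p.2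
        have e4 : 3 * r * max (ga c1 (p.1.1 - c1)) (ga c2 (p.1.2 - c2)) ≤
            max |p.1.1 - c1| |p.1.2 - c2| := by
          rw [mul_max_of_nonneg _ _ (by linarith)]
          exact max_le_max (ga_le hr h1 h2) (ga_le hr h3 h4)
        generalize max (ga c1 (p.1.1 - c1)) (ga c2 (p.1.2 - c2)) = m at he e4
        generalize max |p.1.1 - c1| |p.1.2 - c2| = N at he e3 e4
        have e5 : (1 - l) * (N - r * m) = 0 := by linarith
        have e6 : l = 1 := by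
          rcases mul_eq_zero.1 e5 with h | h
          · linarith
          · linarith
        rw [e6, one_mul] at e1 e2
        exact Subtype.ext (Prod.ext (by linarith) (by linarith)) }
  have ta := tri_args (zz c1 c2 (x 0).1) (zz c1 c2 (x 1).1) (zz c1 c2 (x 2).1)
    (by rw [zz_re, hx0]; linarith) (by rw [zz_im, hx0]; linarith)
    (by rw [zz_re, hx1]; linarith) (by rw [zz_im, hx1]; linarith)
    (by rw [zz_re, hx2]; linarith) (by rw [zz_im, hx2]; linarith)
  have tb := tri_args (zz c1 c2 (y 0).1) (zz c1 c2 (y 1).1) (zz c1 c2 (y 2).1)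
    (by rw [zz_re, hy0]; linarith) (by rw [zz_im, hy0]; linarith)
    (by rw [zz_re, hy1]; linarith) (by rw [zz_im, hy1]; linarith)
    (by rw [zz_re, hy2]; linarith) (by rw [zz_im, hy2]; linarith)
  have hg : ∀ p : K, |p.1.1 - c1| = r → |p.1.2 - c2| = r → A.g p = 0 := by
    intro p e1 e2
    change max |p.1.1 - c1| |p.1.2 - c2| - r = 0
    rw [e1, e2, max_self, sub_self]
  have hg' : ∀ p : K, 1 ≤ ga c1 (p.1.1 - c1) → A.h p = 0 := by
    intro p e1
    change 1 - max (ga c1 (p.1.1 - c1)) (ga c2 (p.1.2 - c2)) = 0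
    have := hh p
    have := le_max_left (ga c1 (p.1.1 - c1)) (ga c2 (p.1.2 - c2))
    linarith
  have a1 : ∀ c : ℝ, |c - r - c| = r := fun c => by
    rw [show c - r - c = -r by ring, abs_neg, abs_of_pos hr]
  have a2 : ∀ c : ℝ, |c + r - c| = r := fun c => by
    rw [show c + r - c = r by ring, abs_of_pos hr]
  refine ⟨A, ⟨⟨fun i => Complex.arg (zz c1 c2 (x i).1), fun j => Complex.arg (zz c1 c2 (y j).1),
    fun i => ?_, fun j => ?_, fun _ => rfl, fun _ => rfl, ta.1, ta.2.1, ta.2.2, tb.1, tb.2.1,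
    tb.2.2⟩⟩⟩
  · fin_cases i
    · exact hg (x 0) (by rw [hx0]; exact a1 _) (by rw [hx0]; exact a1 _)
    · exact hg (x 1) (by rw [hx1]; exact a2 _) (by rw [hx1]; exact a1 _)
    · exact hg (x 2) (by rw [hx2]; exact a2 _) (by rw [hx2]; exact a2 _)
  · fin_cases j
    · exact hg' (y 0) (by rw [hy0]; exact ga_zero (by linarith))
    · exact hg' (y 1) (by rw [hy1]; exact ga_one (by linarith))
    · exact hg' (y 2) (by rw [hy2]; exact ga_one (by linarith))

lemma pre_conn {K S : Set (ℝ × ℝ)} (h : S ⊆ K) (hS : IsPreconnected S) :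
    IsPreconnected (Subtype.val ⁻¹' S : Set K) :=
  IsInducing.subtypeVal.isPreconnected_image.1 (by
    rw [Subtype.image_preimage_coe, inter_eq_right.2 h]; exact hS)

theorem g3 : S_G3 := by
  rintro K - ⟨hK, hV, hVK, hP, hL, hH, hC, hF⟩ hR
  have hcor : ∀ i : Fin 4, cor i ∈ V0 := by
    intro i
    rw [hV]
    fin_cases i <;> simp [cor]
  choose c0 hc0 using hF
  have hb : ∀ w, Adm w → 0 ≤ (c0 w).1 ∧ (c0 w).1 + 1 / 3 ^ w.length ≤ 1 ∧ 0 ≤ (c0 w).2 ∧
      (c0 w).2 + 1 / 3 ^ w.length ≤ 1 := by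
    intro w hw
    have e1 := hK (hP w hw _ (hVK (hcor 0)))
    have e2 := hK (hP w hw _ (hVK (hcor 2)))
    rw [hc0] at e1 e2
    have e3 : cor 0 = (0, 0) := rfl
    have e4 : cor 2 = (1, 1) := rfl
    rw [e3] at e1
    rw [e4] at e2
    exact ⟨by simpa using e1.1.1, e2.1.2, by simpa using e1.2.1, e2.2.2⟩
  let o : K := ⟨cor 3, hVK (hcor 3)⟩
  let y : Fin 3 → K := fun j => ⟨cor j.castSucc, hVK (hcor _)⟩
  have hcfg : ∀ w : {w // Adm w}, ∃ C : Cfg o y,
      ∀ i, (C.x i).1 = Psi w.1 (psi (1, 1) (cor i.castSucc)) := by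
    rintro ⟨w, hw⟩
    obtain ⟨C, c1, c2, c3, c4, c5, c6⟩ := hR w hw
    obtain ⟨b1, b2, b3, b4⟩ := hb w hw
    have ht : (0 : ℝ) < 3 ^ w.length := by positivity
    let x : Fin 3 → K := fun i => ⟨_, c3 _ (c5 i.castSucc)⟩
    have hs : ∀ a : ℝ, a / 3 ^ w.length = a * (1 / 3 ^ w.length) := fun a => by ring
    have hs0 : (0 : ℝ) < 1 / 3 ^ w.length := by positivity
    obtain ⟨A, ⟨T⟩⟩ := exists_ann K hK ((c0 w).1 + 1 / 3 ^ w.length / 2)
      ((c0 w).2 + 1 / 3 ^ w.length / 2) (1 / 3 ^ w.length / 6) (by positivity) (by linarith)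
      (by linarith) (by linarith) (by linarith) (by
        intro p hp
        by_contra h
        rw [not_le, max_lt_iff, abs_lt, abs_lt] at h
        have e : (1 / 3 ^ w.length : ℝ) * 3 ^ w.length = 1 := by field_simp
        refine hH w hw ((p.1 - (c0 w).1) * 3 ^ w.length, (p.2 - (c0 w).2) * 3 ^ w.length)
          ⟨⟨?_, ?_⟩, ⟨?_, ?_⟩⟩ ?_
        · nlinarith [h.1.1]
        · nlinarith [h.1.2]
        · nlinarith [h.2.1]
        · nlinarith [h.2.2]
        · rw [hc0]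
          simp only [mul_div_cancel_right₀ _ ht.ne', add_sub_cancel]
          exact hp) x y
      (by
        change Psi w (psi (1, 1) (0, 0)) = _
        rw [hc0, hs, hs]
        refine Prod.ext ?_ ?_ <;> simp only [psi] <;> norm_num <;> ring)
      (by
        change Psi w (psi (1, 1) (1, 0)) = _
        rw [hc0, hs, hs]
        refine Prod.ext ?_ ?_ <;> simp only [psi] <;> norm_num <;> ring)
      (by
        change Psi w (psi (1, 1) (1, 1)) = _
        rw [hc0, hs, hs]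
        refine Prod.ext ?_ ?_ <;> simp only [psi] <;> norm_num <;> ring)
      rfl rfl rfl
    refine ⟨⟨x, A, T, fun i => Subtype.val ⁻¹' C i.castSucc,
      fun i => (c1 _).isClosed.preimage continuous_subtype_val,
      fun i => pre_conn (c3 _) (c2 _),
      fun i j hij => (c4 _ _ (Fin.castSucc_injective _ |>.ne hij)).preimage _,
      fun i => c5 _, fun i => c6 _, fun i h => ?_⟩, fun i => rfl⟩
    exact Set.disjoint_left.1 (c4 i.castSucc 3 (Fin.castSucc_lt_last i).ne) h (c6 3)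
  choose c hc using hcfg
  refine ⟨o, y, {w // Adm w}, inferInstance, c, hcor 3, fun j => hcor j.castSucc, ?_⟩
  rintro U hU ⟨p, hp⟩
  obtain ⟨ε, hε, hball⟩ := Metric.isOpen_iff.1 hU p hp
  obtain ⟨n, hn⟩ := exists_pow_lt_of_lt_one hε (show (1 / 3 : ℝ) < 1 by norm_num)
  obtain ⟨w, hw, rfl, q, hq, hqp⟩ := hC p.1 p.2 n
  rw [one_div_pow] at hn
  obtain ⟨b1, b2, b3, b4⟩ := hb w hw
  have hs : ∀ a : ℝ, a / 3 ^ w.length = a * (1 / 3 ^ w.length) := fun a => by ring
  have hs0 : (0 : ℝ) < 1 / 3 ^ w.length := by positivity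
  have hcont : Continuous (Psi w) := by
    rw [show Psi w = _ from funext (hc0 w)]
    fun_prop
  have hsub : Psi w '' (Icc (1 / 3 : ℝ) (2 / 3) ×ˢ {(1 / 3 : ℝ)}) ⊆ K := by
    rintro _ ⟨⟨a, b⟩, ⟨ha, rfl : b = 1 / 3⟩, rfl⟩
    refine hP w hw _ ?_
    have := (hL 1 a ⟨by linarith [ha.1], by linarith [ha.2]⟩).2
    simpa using this
  refine ⟨⟨w, hw⟩, Subtype.val ⁻¹' (Psi w '' (Icc (1 / 3 : ℝ) (2 / 3) ×ˢ {(1 / 3 : ℝ)})),
    pre_conn hsub ((isPreconnected_Icc.prod isPreconnected_singleton).image _ hcont.continuousOn),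
    ?_, ?_, ?_, ?_⟩
  · rintro z ⟨⟨a, b⟩, ⟨ha, rfl : b = 1 / 3⟩, hz⟩
    refine hball ?_
    have e1 := (hK hq).1
    have e2 := (hK hq).2
    rw [Metric.mem_ball, Subtype.dist_eq, ← hz, ← hqp, hc0, hc0, Prod.dist_eq, max_lt_iff,
      Real.dist_eq, Real.dist_eq, abs_lt, abs_lt]
    have a1 : 1 / 3 ≤ a := ha.1
    have a2 : a ≤ 2 / 3 := ha.2
    simp only
    rw [hs a, hs (1 / 3), hs q.1, hs q.2]
    refine ⟨⟨?_, ?_⟩, ?_, ?_⟩ <;> nlinarith [e1.1, e1.2, e2.1, e2.2]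
  · rintro z ⟨⟨a, b⟩, ⟨ha, rfl : b = 1 / 3⟩, hz⟩ hz0
    rw [hV, ← hz, hc0] at hz0
    have a1 : 1 / 3 ≤ a := ha.1
    have a2 : a ≤ 2 / 3 := ha.2
    simp only at hz0
    rw [hs a, hs (1 / 3)] at hz0
    rcases hz0.2 with h | h | h | h <;> nlinarith
  · refine ⟨(1 / 3, 1 / 3), ⟨⟨le_rfl, by norm_num⟩, rfl⟩, ?_⟩
    rw [hc]
    congr 1
    change _ = psi (1, 1) (0, 0)
    simp [psi]
  · refine ⟨(2 / 3, 1 / 3), ⟨⟨by norm_num, le_rfl⟩, rfl⟩, ?_⟩
    rw [hc]
    congr 1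
    change _ = psi (1, 1) (1, 0)
    simp only [psi]
    norm_num

end Pool.Agent.H325Z.SC
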